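import Pool.Agent.Q271.HB.GFrag

/-!
# MP_68f289_gt, Q2: normal subgroups of the group of hameomorphisms of the ball

`HameoGroup n` is the group of the hameomorphisms (Oh, Müller) of the open unit ball `B` of
`ℝ^{2n}`, for `n ≥ 1`: the time one maps of the uniform limits of the flows of smooth Hamiltonians
supported in a common compact subset of `B` and Cauchy for the Hofer norm. For a ball `B(q, r)` in
`B` let `G(q, r)` be the copy of the group in this ball: its conjugate by the similarity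
`x ↦ q + r x`. It is a subgroup of `G = HameoGroup n`.

Theorem. The group `G` is simple if and only if it is perfect and, for one radius `r < 1`, it is
generated by the conjugates of the elements of `G(0, r)`; it is simple if and only if it has no
proper nontrivial normal subgroup invariant under the conjugation by the dilations. If it is
generated by the groups `G(q, r)` for one `r < 1`, all nontrivial normal subgroups contain the
commutator subgroup. Every nontrivial normal subgroup contains the copies of the elements of the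
commutator subgroup in all small balls, and two of them have a nontrivial intersection.
Homomorphisms to linear groups over commutative Noetherian rings take the groups `G(q, r)`, `r`
small, to central elements of the image. The nontrivial normal subgroups of the group of all
Hamiltonian homeomorphisms contain nontrivial hameomorphisms, and contain all of them if `G` is
simple.

The proof uses the construction of `Pool/Agent/Y453/HB` and the parts `Y907`, `Y510`, `Y419`,
`Y309`, `Y496`, `Y945` (folders `HB`) of the starting files.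
-/

set_option autoImplicit false

namespace Pool.Agent.Results.MP_68f289_gt.HameoNormalSubgroups

/-- `ℝ^{2n}`, with coordinates `(x, y)` -/
abbrev E (n : ℕ) : Type := (Fin n → ℝ) × (Fin n → ℝ)

/-- the open unit ball -/
def ball (n : ℕ) : Set (E n) := {p | ∑ i, ((p.1 i) ^ 2 + (p.2 i) ^ 2) < 1}

/-- the directional derivative of `h` at `p` in the direction `v` -/
noncomputable def dirDeriv {n : ℕ} (h : E n → ℝ) (p v : E n) : ℝ := fderiv ℝ h p v

/-- the unit vector of the coordinate `x i` -/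
def ex {n : ℕ} (i : Fin n) : E n := (Pi.single i 1, 0)

/-- the unit vector of the coordinate `y i` -/
def ey {n : ℕ} (i : Fin n) : E n := (0, Pi.single i 1)

/-- the Hamiltonian vector field `(∂h/∂y, -∂h/∂x)` of `h` -/
noncomputable def field {n : ℕ} (h : E n → ℝ) (p : E n) : E n :=
  (fun i => dirDeriv h p (ey i), fun i => -dirDeriv h p (ex i))

/-- the time dependent Hamiltonian `H` is smooth -/
def IsSmooth {n : ℕ} (H : ℝ → E n → ℝ) : Prop :=
  ContDiff ℝ ((⊤ : ℕ∞) : WithTop ℕ∞) (Function.uncurry H)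

/-- `ψ` is the flow of the Hamiltonian `H` -/
def IsFlow {n : ℕ} (H : ℝ → E n → ℝ) (ψ : ℝ → E n → E n) : Prop :=
  (∀ x, ψ 0 x = x) ∧ ∀ t x, HasDerivAt (fun s => ψ s x) (field (H t) (ψ t x)) t

/-- `u` is the time one map of the flow of a smooth Hamiltonian supported in a compact subset of the
open unit ball -/
def IsTimeOneMap {n : ℕ} (u : E n → E n) : Prop :=
  ∃ H : ℝ → E n → ℝ, IsSmooth H ∧
    (∃ K : Set (E n), IsCompact K ∧ K ⊆ ball n ∧ ∀ t x, x ∉ K → H t x = 0) ∧
    ∃ ψ : ℝ → E n → E n, IsFlow H ψ ∧ ∀ x, u x = ψ 1 x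

/-- homeomorphisms of `ℝ^{2n}` -/
abbrev Homeo (n : ℕ) : Type := E n ≃ₜ E n

/-- `φ` is the identity off `K` -/
def FixesOff {n : ℕ} (K : Set (E n)) (φ : Homeo n) : Prop := ∀ x, x ∉ K → φ x = x

/-- the sequence `u` converges uniformly to `φ` -/
def ConvergesTo {n : ℕ} (u : ℕ → Homeo n) (φ : Homeo n) : Prop :=
  TendstoUniformly (fun k x => u k x) (fun x => φ x) Filter.atTop

/-- the homeomorphisms supported in a compact subset `K` of the open unit ball that are uniform
limits of Hamiltonian diffeomorphisms supported in `K` -/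
def hamBar (n : ℕ) : Set (Homeo n) :=
  {φ | ∃ K : Set (E n), IsCompact K ∧ K ⊆ ball n ∧ FixesOff K φ ∧
    ∃ u : ℕ → Homeo n, (∀ k, FixesOff K (u k)) ∧ (∀ k, IsTimeOneMap (u k)) ∧ ConvergesTo u φ}

/-- the group of compactly supported Hamiltonian homeomorphisms of the open unit ball -/
def HamGroup (n : ℕ) : Type := ↥(Subgroup.closure (hamBar n))

noncomputable instance (n : ℕ) : Group (HamGroup n) :=
  inferInstanceAs (Group ↥(Subgroup.closure (hamBar n)))

/-- the homeomorphism `φ` as a map -/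
def HamGroup.map {n : ℕ} (φ : HamGroup n) : E n → E n := (φ.1 : Homeo n)

/-- the oscillation of `f`, which is `max f - min f` for continuous `f` with compact support -/
noncomputable def osc {n : ℕ} (f : E n → ℝ) : ℝ := (⨆ x, f x) - ⨅ x, f x

/-- the Hofer norm of the Hamiltonian `H` -/
noncomputable def hofer {n : ℕ} (H : ℝ → E n → ℝ) : ℝ := ∫ t in (0 : ℝ)..1, osc (H t)

/-- the sequence `H` of Hamiltonians is Cauchy for the Hofer norm -/
def IsHoferCauchy {n : ℕ} (H : ℕ → ℝ → E n → ℝ) : Prop :=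
  ∀ ε : ℝ, 0 < ε → ∃ m, ∀ i, m ≤ i → ∀ j, m ≤ j → hofer (fun t x => H i t x - H j t x) < ε

/-- the isotopies `ψ k` converge to the isotopy `Ψ`, uniformly in `(t, x)`, `0 ≤ t ≤ 1` -/
def IsotopiesConverge {n : ℕ} (ψ : ℕ → ℝ → Homeo n) (Ψ : ℝ → Homeo n) : Prop :=
  ∀ ε : ℝ, 0 < ε → ∃ m, ∀ k, m ≤ k → ∀ t ∈ Set.Icc (0 : ℝ) 1, ∀ x, dist (ψ k t x) (Ψ t x) < ε

/-- `Ψ t`, `0 ≤ t ≤ 1`, is a continuous isotopy -/
def IsIsotopy {n : ℕ} (Ψ : ℝ → Homeo n) : Prop :=
  ContinuousOn (fun p : ℝ × E n => Ψ p.1 p.2) (Set.Icc 0 1 ×ˢ Set.univ)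

/-- `φ` is a hameomorphism of the open unit ball: there are a compact subset `K` of the ball and
smooth Hamiltonians supported in `K`, Cauchy for the Hofer norm, whose flows converge uniformly to
a continuous isotopy with time one map `φ` -/
def IsHameo {n : ℕ} (φ : Homeo n) : Prop :=
  ∃ K : Set (E n), IsCompact K ∧ K ⊆ ball n ∧
    ∃ (H : ℕ → ℝ → E n → ℝ) (ψ : ℕ → ℝ → Homeo n) (Ψ : ℝ → Homeo n),
      (∀ k, IsSmooth (H k)) ∧ (∀ k t x, x ∉ K → H k t x = 0) ∧
      (∀ k, IsFlow (H k) fun t x => ψ k t x) ∧ IsHoferCauchy H ∧ IsotopiesConverge ψ Ψ ∧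
      IsIsotopy Ψ ∧ Ψ 1 = φ

/-- the group of hameomorphisms of the open unit ball -/
def HameoGroup (n : ℕ) : Type := ↥(Subgroup.closure {φ : Homeo n | IsHameo φ})

noncomputable instance (n : ℕ) : Group (HameoGroup n) :=
  inferInstanceAs (Group ↥(Subgroup.closure {φ : Homeo n | IsHameo φ}))

/-- the homeomorphism `φ` as a map -/
def HameoGroup.map {n : ℕ} (φ : HameoGroup n) : E n → E n := (φ.1 : Homeo n)

/-- the Euclidean norm on `ℝ^{2n}` -/
noncomputable def eNorm {n : ℕ} (p : E n) : ℝ := Real.sqrt (∑ i, ((p.1 i) ^ 2 + (p.2 i) ^ 2))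

/-- `g` is the copy of `φ` in the ball with centre `q` and radius `r`: its conjugate by the
similarity `x ↦ q + r x` -/
def IsCopy {n : ℕ} (q : E n) (r : ℝ) (φ g : HameoGroup n) : Prop :=
  ∀ x, g.map (q + r • x) = q + r • φ.map x

/-- the copy `G(q, r)` of the group in the ball with centre `q` and radius `r` -/
def copyGroup {n : ℕ} (q : E n) (r : ℝ) : Set (HameoGroup n) := {g | ∃ φ, IsCopy q r φ g}

/-- the closed ball with centre `q` and radius `r` is in the open unit ball -/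
def IsSubBall {n : ℕ} (q : E n) (r : ℝ) : Prop := 0 < r ∧ eNorm q + r < 1

/-- the group `G(0, r)` normally generates the whole group -/
def Fragments (n : ℕ) (r : ℝ) : Prop :=
  Subgroup.normalClosure (copyGroup (0 : E n) r) = ⊤

/-- the whole group is generated by the groups `G(q, r)` -/
def FragmentsIntoBalls (n : ℕ) (r : ℝ) : Prop :=
  Subgroup.closure {g : HameoGroup n | ∃ q : E n, IsSubBall q r ∧ g ∈ copyGroup q r} = ⊤

/-- the subgroup `N` is invariant under the conjugation by the dilations `x ↦ s x`, `0 < s < 1` -/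
def IsDilationInvariant {n : ℕ} (N : Subgroup (HameoGroup n)) : Prop :=
  ∀ s : ℝ, 0 < s → s < 1 → ∀ φ φ' : HameoGroup n, (∀ x, φ'.map (s • x) = s • φ.map x) →
    φ ∈ N → φ' ∈ N

/-- the chain condition on centralizers: for a decreasing sequence of subsets, the centralizers are
eventually constant -/
def ChainCondition (Γ : Type) [Group Γ] : Prop := ∀ S : ℕ → Set Γ, Antitone S →
  ∃ m, ∀ k, m ≤ k → Subgroup.centralizer (S k) = Subgroup.centralizer (S m)

/-- the homomorphism `c` takes the copies of the group in the balls with radius at most `R` to the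
centre of its image, with values independent of the centre of the ball, and if the group is perfect
it is trivial on these copies -/
def IsCentralOnSmallBalls {n : ℕ} {Γ : Type} [Group Γ] (c : HameoGroup n →* Γ) (R : ℝ) : Prop :=
  ∀ r : ℝ, r ≤ R → ∀ (q : E n) (φ a : HameoGroup n), IsSubBall q r → IsCopy q r φ a →
    (∀ g, c a * c g = c g * c a) ∧
    (∀ (q' : E n) (b : HameoGroup n), IsSubBall q' r → IsCopy q' r φ b → c a = c b) ∧
    (commutator (HameoGroup n) = ⊤ → c a = 1)

/-! ### Proofs -/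

theorem timeOne_iff {n : ℕ} (u : Homeo n) : IsTimeOneMap u ↔ Pool.Agent.Y453.HB.IsHam u := by
  constructor
  · rintro ⟨H, h1, h2, ψ, ⟨h3, h4⟩, h5⟩
    exact ⟨H, h1, h2, ψ, h3, h4, h5⟩
  · rintro ⟨H, h1, h2, ψ, h3, h4, h5⟩
    exact ⟨H, h1, h2, ψ, ⟨h3, h4⟩, h5⟩

theorem hamBar_eq (n : ℕ) : hamBar n = Pool.Agent.Y453.HB.hamBar n := by
  ext φ
  constructor
  · rintro ⟨K, h1, h2, h3, u, h4, h5, h6⟩
    exact ⟨K, h1, h2, h3, u, h4, fun k => (timeOne_iff _).1 (h5 k), h6⟩
  · rintro ⟨K, h1, h2, h3, u, h4, h5, h6⟩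
    exact ⟨K, h1, h2, h3, u, h4, fun k => (timeOne_iff _).2 (h5 k), h6⟩

/-- the two groups of Hamiltonian homeomorphisms -/
noncomputable def isoB (n : ℕ) : HamGroup n ≃* Pool.Agent.Y453.HB.HamBar n :=
  MulEquiv.subgroupCongr (by rw [hamBar_eq]; rfl)

theorem hameo_eq (n : ℕ) : {φ : Homeo n | IsHameo φ} = Pool.Agent.Q271.HB.Gen.hameo n := by
  ext φ
  constructor
  · rintro ⟨K, h1, h2, H, ψ, Ψ, h3, h4, h5, h6, h7, h8, h9⟩
    exact ⟨K, h1, h2, H, ψ, Ψ, h3, h4, h5, h6, h7, h8, h9⟩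
  · rintro ⟨K, h1, h2, H, ψ, Ψ, h3, h4, h5, h6, h7, h8, h9⟩
    exact ⟨K, h1, h2, H, ψ, Ψ, h3, h4, h5, h6, h7, h8, h9⟩

/-- the two groups of hameomorphisms -/
noncomputable def iso (n : ℕ) : HameoGroup n ≃* Pool.Agent.Q271.HB.Gen.Hameo n :=
  MulEquiv.subgroupCongr (by rw [hameo_eq]; rfl)

theorem isCopy_iff {n : ℕ} {q : E n} {r : ℝ} {φ φ' : HameoGroup n} :
    Pool.Agent.Q271.HB.Gen.IsCopy q r (iso n φ) (iso n φ') ↔ IsCopy q r φ φ' := Iff.rfl

theorem mem_Loc_iff {n : ℕ} {q : E n} {r : ℝ} {g : HameoGroup n} :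
    iso n g ∈ (Pool.Agent.Q271.HB.Gen.Loc q r : Subgroup (Pool.Agent.Q271.HB.Gen.Hameo n)) ↔
      g ∈ copyGroup q r := by
  constructor
  · rintro ⟨φ, hφ⟩
    refine ⟨(iso n).symm φ, isCopy_iff.1 ?_⟩
    rw [MulEquiv.apply_symm_apply]
    exact hφ
  · rintro ⟨φ, hφ⟩
    exact ⟨iso n φ, isCopy_iff.2 hφ⟩

theorem image_copy {n : ℕ} (q : E n) (r : ℝ) : (iso n) '' copyGroup q r =
    ((Pool.Agent.Q271.HB.Gen.Loc q r : Subgroup (Pool.Agent.Q271.HB.Gen.Hameo n)) :
      Set (Pool.Agent.Q271.HB.Gen.Hameo n)) := by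
  ext x
  constructor
  · rintro ⟨g, hg, rfl⟩
    exact mem_Loc_iff.2 hg
  · intro hg
    refine ⟨(iso n).symm x, mem_Loc_iff.1 ?_, MulEquiv.apply_symm_apply _ _⟩
    rw [MulEquiv.apply_symm_apply]
    exact hg

theorem map_top_iff {n : ℕ} (M : Subgroup (HameoGroup n)) :
    M.map (iso n).toMonoidHom = ⊤ ↔ M = ⊤ := by
  constructor
  · intro h
    rw [eq_top_iff]
    intro x _
    have h1 : iso n x ∈ M.map (iso n).toMonoidHom := by
      rw [h]
      exact Subgroup.mem_top _
    obtain ⟨y, hy, hxy⟩ := h1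
    have h2 : y = x := (iso n).injective hxy
    rwa [← h2]
  · intro h
    rw [h, ← MonoidHom.range_eq_map, MonoidHom.range_eq_top.2 (iso n).surjective]

theorem fragments_iff {n : ℕ} {r : ℝ} : Fragments n r ↔
    Pool.Agent.Q271.HB.Gen.Fr (Pool.Agent.Q271.HB.Gen.Hameo n) r = ⊤ := by
  unfold Fragments
  rw [← map_top_iff, Subgroup.map_normalClosure _ _ (iso n).surjective]
  change Subgroup.normalClosure ((iso n) '' copyGroup (0 : E n) r) = ⊤ ↔ _
  rw [image_copy]
  rfl

theorem balls_iff {n : ℕ} {r : ℝ} (hr : 0 < r) : FragmentsIntoBalls n r ↔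
    Subgroup.closure
      (Pool.Agent.Q271.HB.Gen.Frs (Pool.Agent.Q271.HB.Gen.Hameo n) r) = ⊤ := by
  unfold FragmentsIntoBalls
  rw [← map_top_iff, MonoidHom.map_closure]
  have h : (iso n).toMonoidHom '' {g : HameoGroup n | ∃ q : E n, IsSubBall q r ∧
      g ∈ copyGroup q r} = Pool.Agent.Q271.HB.Gen.Frs (Pool.Agent.Q271.HB.Gen.Hameo n) r := by
    ext x
    constructor
    · rintro ⟨g, ⟨q, hq, hg⟩, rfl⟩
      exact ⟨q, hq.2, mem_Loc_iff.2 hg⟩
    · rintro ⟨q, hq, hg⟩
      refine ⟨(iso n).symm x, ⟨q, ⟨hr, hq⟩, mem_Loc_iff.1 ?_⟩, MulEquiv.apply_symm_apply _ _⟩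
      rw [MulEquiv.apply_symm_apply]
      exact hg
  rw [h]

theorem map_comm {n : ℕ} : (commutator (HameoGroup n)).map (iso n).toMonoidHom =
    commutator (Pool.Agent.Q271.HB.Gen.Hameo n) := by
  rw [commutator_def, Subgroup.map_commutator, ← MonoidHom.range_eq_map,
    MonoidHom.range_eq_top.2 (iso n).surjective]
  rfl

theorem perfect_iff {n : ℕ} : commutator (HameoGroup n) = ⊤ ↔
    commutator (Pool.Agent.Q271.HB.Gen.Hameo n) = ⊤ := by
  rw [← map_top_iff, map_comm]

theorem comap_bot {n : ℕ} {M : Subgroup (HameoGroup n)}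
    (h : M.comap (iso n).symm.toMonoidHom = ⊥) : M = ⊥ := by
  rw [Subgroup.eq_bot_iff_forall] at h ⊢
  intro x hx
  have h1 := h (iso n x) (by
    change (iso n).symm (iso n x) ∈ M
    rwa [MulEquiv.symm_apply_apply])
  exact (iso n).injective (h1.trans (map_one _).symm)

theorem comap_top {n : ℕ} {M : Subgroup (HameoGroup n)}
    (h : M.comap (iso n).symm.toMonoidHom = ⊤) : M = ⊤ := by
  rw [eq_top_iff]
  intro x _
  have h1 : iso n x ∈ M.comap (iso n).symm.toMonoidHom := by
    rw [h]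
    exact Subgroup.mem_top _
  change (iso n).symm (iso n x) ∈ M at h1
  rwa [MulEquiv.symm_apply_apply] at h1

theorem comap_ne_bot {n : ℕ} {M : Subgroup (Pool.Agent.Q271.HB.Gen.Hameo n)} (h : M ≠ ⊥) :
    M.comap (iso n).toMonoidHom ≠ ⊥ := by
  intro h1
  apply h
  rw [Subgroup.eq_bot_iff_forall] at h1 ⊢
  intro x hx
  have h2 := h1 ((iso n).symm x) (by
    change iso n ((iso n).symm x) ∈ M
    rwa [MulEquiv.apply_symm_apply])
  have h3 := congrArg (iso n) h2
  rwa [MulEquiv.apply_symm_apply, map_one] at h3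

theorem of_comap_top {n : ℕ} {M : Subgroup (Pool.Agent.Q271.HB.Gen.Hameo n)}
    (h : M.comap (iso n).toMonoidHom = ⊤) : M = ⊤ := by
  rw [eq_top_iff]
  intro x _
  have h1 : (iso n).symm x ∈ M.comap (iso n).toMonoidHom := by
    rw [h]
    exact Subgroup.mem_top _
  change iso n ((iso n).symm x) ∈ M at h1
  rwa [MulEquiv.apply_symm_apply] at h1

theorem nontriv {n : ℕ} (hn : 0 < n) : Nontrivial (HameoGroup n) := by
  obtain ⟨φ, hφ⟩ := Pool.Agent.Q271.HB.Gen.exists_ne_one
    (Pool.Agent.Q271.HB.Gen.good_hameo (n := n)) hn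
  exact ⟨(iso n).symm φ, 1, fun h => hφ (by
    have h1 := congrArg (iso n) h
    rwa [MulEquiv.apply_symm_apply, map_one] at h1)⟩

theorem simple_of {n : ℕ} (hn : 0 < n) (h1 : commutator (HameoGroup n) = ⊤)
    (h2 : ∃ r : ℝ, 0 < r ∧ r < 1 ∧ Fragments n r) : IsSimpleGroup (HameoGroup n) := by
  obtain ⟨r, hr, hr1, hF⟩ := h2
  haveI := nontriv hn
  refine ⟨fun M hM => ?_⟩
  by_cases hb : M = ⊥
  · exact Or.inl hb
  · refine Or.inr (comap_top (Pool.Agent.Q271.HB.Gen.simple_of
      Pool.Agent.Q271.HB.Gen.good_hameo (perfect_iff.1 h1) hr hr1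
      (fragments_iff.1 hF) _ (hM.comap _) fun h => hb (comap_bot h)))

theorem hperf {n : ℕ} (hn : 0 < n)
    (h : ∀ N : Subgroup (HameoGroup n), N.Normal → IsDilationInvariant N → N = ⊥ ∨ N = ⊤) :
    commutator (HameoGroup n) = ⊤ ∧ ∃ r : ℝ, 0 < r ∧ r < 1 ∧ Fragments n r := by
  have hG := Pool.Agent.Q271.HB.Gen.good_hameo (n := n)
  have key : ∀ M : Subgroup (Pool.Agent.Q271.HB.Gen.Hameo n), M.Normal → M ≠ ⊥ →
      (∀ (s : ℝ) (hs : 0 < s) (hs1 : s < 1),
        M ≤ M.comap (Pool.Agent.Q271.HB.Gen.lam hG s hs hs1)) → M = ⊤ := by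
    intro M hM hM1 hM2
    refine of_comap_top ((h (M.comap (iso n).toMonoidHom) (hM.comap _) ?_).resolve_left
      (comap_ne_bot hM1))
    intro s hs hs1 φ φ' hφ hm
    have h1 : Pool.Agent.Q271.HB.Gen.lam hG s hs hs1 (iso n φ) = iso n φ' := by
      refine (Pool.Agent.Q271.HB.Gen.lam_isCopy hG hs hs1 (iso n φ)).unique hs ?_
      rw [isCopy_iff]
      intro x
      rw [zero_add, zero_add]
      exact hφ x
    have h2 := hM2 s hs hs1 (show iso n φ ∈ M from hm)
    change Pool.Agent.Q271.HB.Gen.lam hG s hs hs1 (iso n φ) ∈ M at h2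
    rw [h1] at h2
    exact h2
  constructor
  · rw [perfect_iff]
    exact key _ inferInstance (Pool.Agent.Q271.HB.Gen.commutator_ne_bot hG hn)
      fun s hs hs1 => Pool.Agent.Q271.HB.Gen.inv_commutator hG hs hs1
  · refine ⟨1 / 2, by norm_num, by norm_num, ?_⟩
    rw [fragments_iff]
    exact key _ inferInstance
      (Pool.Agent.Q271.HB.Gen.Fr_ne_bot hG hn (by norm_num) (by norm_num))
      fun s hs hs1 => Pool.Agent.Q271.HB.Gen.inv_Fr hG hs hs1 (by norm_num)

theorem balls {n : ℕ} (h : ∃ r : ℝ, 0 < r ∧ r < 1 ∧ FragmentsIntoBalls n r)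
    (N : Subgroup (HameoGroup n)) (hN : N.Normal) (hN1 : N ≠ ⊥) :
    commutator (HameoGroup n) ≤ N := by
  obtain ⟨r, hr, hr1, h⟩ := h
  have h1 := Pool.Agent.Q271.HB.Gen.comm_le Pool.Agent.Q271.HB.Gen.good_hameo hr hr1
    ((balls_iff hr).1 h) (N.comap (iso n).symm.toMonoidHom) (hN.comap _)
    fun h => hN1 (comap_bot h)
  rw [← map_comm] at h1
  intro x hx
  have h2 := h1 (Subgroup.mem_map_of_mem _ hx)
  change (iso n).symm (iso n x) ∈ N at h2
  rwa [MulEquiv.symm_apply_apply] at h2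

theorem copies {n : ℕ} (N : Subgroup (HameoGroup n)) (hN : N.Normal) (hN1 : N ≠ ⊥) :
    ∃ ρ : ℝ, 0 < ρ ∧ ∀ (q : E n) (r : ℝ), IsSubBall q r → r ≤ ρ →
      ∀ φ ∈ commutator (HameoGroup n), ∀ g, IsCopy q r φ g → g ∈ N := by
  obtain ⟨ρ, hρ, h1⟩ := Pool.Agent.Q271.HB.Gen.copy_commutators
    Pool.Agent.Q271.HB.Gen.good_hameo (N.comap (iso n).symm.toMonoidHom) (hN.comap _)
    fun h => hN1 (comap_bot h)
  refine ⟨ρ, hρ, fun q r hq hr φ hφ g hg => ?_⟩
  have h2 := h1 r hq.1 hr q hq.2 (iso n φ)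
    (by rw [← map_comm]; exact Subgroup.mem_map_of_mem _ hφ) (iso n g) (isCopy_iff.2 hg)
  change (iso n).symm (iso n g) ∈ N at h2
  rwa [MulEquiv.symm_apply_apply] at h2

theorem inter {n : ℕ} (hn : 0 < n) (N N' : Subgroup (HameoGroup n)) (hN : N.Normal)
    (hN' : N'.Normal) (h : N ≠ ⊥) (h' : N' ≠ ⊥) : N ⊓ N' ≠ ⊥ := by
  intro hc
  refine Pool.Agent.Q271.HB.Gen.inter Pool.Agent.Q271.HB.Gen.good_hameo hn
    (N.comap (iso n).symm.toMonoidHom) (N'.comap (iso n).symm.toMonoidHom) (hN.comap _)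
    (hN'.comap _) (fun h1 => h (comap_bot h1)) (fun h1 => h' (comap_bot h1)) ?_
  rw [← Subgroup.comap_inf, hc, Subgroup.eq_bot_iff_forall]
  intro x hx
  have h1 : (iso n).symm x = 1 := Subgroup.mem_bot.1 hx
  have h2 := congrArg (iso n) h1
  rwa [MulEquiv.apply_symm_apply, map_one] at h2

theorem main {n : ℕ} (hn : 0 < n) {Γ : Type} [Group Γ] (hΓ : ChainCondition Γ)
    (c : HameoGroup n →* Γ) : ∃ R : ℝ, 0 < R ∧ IsCentralOnSmallBalls c R := by
  have hG := Pool.Agent.Q271.HB.Gen.good_hameo (n := n)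
  obtain ⟨R, hR, hR1, h1, h2⟩ :=
    Pool.Agent.Q271.HB.Gen.central_of_mc hG hn hΓ (c.comp (iso n).symm.toMonoidHom)
  have hc : ∀ g, (c.comp (iso n).symm.toMonoidHom) (iso n g) = c g := fun g => by
    change c ((iso n).symm (iso n g)) = c g
    rw [MulEquiv.symm_apply_apply]
  have hA : ∀ r : ℝ, r ≤ R → ∀ (q : E n) (φ a : HameoGroup n), IsSubBall q r → IsCopy q r φ a →
      ∀ g, c a * c g = c g * c a := by
    intro r hr q φ a hq ha g
    have h3 := h1 r hq.1 hr q hq.2 (iso n a) ⟨iso n φ, isCopy_iff.2 ha⟩ (iso n g)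
    rwa [hc, hc] at h3
  refine ⟨R, hR, fun r hr q φ a hq ha => ⟨hA r hr q φ a hq ha, fun q' b hq' hb => ?_,
    fun hp => ?_⟩⟩
  · have h3 := h2 r hq.1 hr q q' hq.2 hq'.2 (iso n φ) (iso n a) (iso n b) (isCopy_iff.2 ha)
      (isCopy_iff.2 hb)
    rwa [hc, hc] at h3
  · -- the copy as a homomorphism
    have hex : ∀ φ : HameoGroup n, ∃ a : HameoGroup n, IsCopy q r φ a := by
      intro φ
      obtain ⟨a, ha⟩ := Pool.Agent.Q271.HB.Gen.exists_copy hG hq.1 hq.2 (iso n φ)
      refine ⟨(iso n).symm a, isCopy_iff.1 ?_⟩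
      rw [MulEquiv.apply_symm_apply]
      exact ha
    have huniq : ∀ φ a a' : HameoGroup n, IsCopy q r φ a → IsCopy q r φ a' → a = a' := by
      intro φ a a' h h'
      exact (iso n).injective ((isCopy_iff.2 h).unique hq.1 (isCopy_iff.2 h'))
    choose κ hκ using hex
    have hmul : ∀ φ ψ, κ (φ * ψ) = κ φ * κ ψ := by
      intro φ ψ
      refine huniq (φ * ψ) _ _ (hκ _) fun x => ?_
      change (κ φ).map ((κ ψ).map (q + r • x)) = q + r • φ.map (ψ.map x)
      rw [hκ ψ x, hκ φ]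
    let K : HameoGroup n →* Γ := MonoidHom.mk' (fun φ => c (κ φ)) fun φ ψ => by
      rw [hmul, map_mul]
    have h3 : commutator (HameoGroup n) ≤ K.ker := by
      rw [commutator_def, Subgroup.commutator_le]
      intro x _ y _
      rw [MonoidHom.mem_ker, commutatorElement_def, map_mul, map_mul, map_mul, map_inv, map_inv]
      have h4 : K x * K y = K y * K x := hA r hr q x (κ x) hq (hκ x) (κ y)
      rw [h4]
      group
    rw [hp] at h3
    have h5 : K φ = 1 := MonoidHom.mem_ker.1 (h3 (Subgroup.mem_top φ))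
    have h6 : κ φ = a := huniq φ _ _ (hκ φ) ha
    rw [← h6]
    exact h5

theorem meets {n : ℕ} (hn : 0 < n) (M : Subgroup (HamGroup n)) (hM : M.Normal) (hM1 : M ≠ ⊥) :
    ∃ N : Subgroup (HameoGroup n), N.Normal ∧ N ≠ ⊥ ∧
      ∀ g : HameoGroup n, g ∈ N ↔ ∃ h ∈ M, h.map = g.map := by
  have hG := Pool.Agent.Q271.HB.Gen.good_hameo (n := n)
  have h1 : M.comap (isoB n).symm.toMonoidHom ≠ ⊥ := by
    intro h
    apply hM1
    rw [Subgroup.eq_bot_iff_forall] at h ⊢
    intro x hx
    have h1 := h (isoB n x) (by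
      change (isoB n).symm (isoB n x) ∈ M
      rwa [MulEquiv.symm_apply_apply])
    exact (isoB n).injective (h1.trans (map_one _).symm)
  have h2 := Pool.Agent.Q271.HB.Gen.meets' hG hn (M.comap (isoB n).symm.toMonoidHom)
    (hM.comap _) h1
  have h3 : (M.comap (isoB n).symm.toMonoidHom).Normal := hM.comap _
  refine ⟨((M.comap (isoB n).symm.toMonoidHom).comap (Subgroup.inclusion hG.le)).comap
    (iso n).toMonoidHom, (h3.comap _).comap _, comap_ne_bot h2, fun g => ?_⟩
  constructor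
  · intro hg
    refine ⟨_, hg, ?_⟩
    rfl
  · rintro ⟨h, hh, hhg⟩
    change (isoB n).symm (Subgroup.inclusion hG.le (iso n g)) ∈ M
    have h4 : isoB n h = Subgroup.inclusion hG.le (iso n g) := by
      refine Subtype.ext (Homeomorph.ext fun x => ?_)
      exact congrFun hhg x
    rw [← h4, MulEquiv.symm_apply_apply]
    exact hh

/-- Let `n ≥ 1` and let `G = HameoGroup n` be the group of hameomorphisms of the open unit ball of
`ℝ^{2n}`.

(1) `G` is simple if and only if it is perfect and is generated by the conjugates of the elements of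
`G(0, r)` for some `0 < r < 1`.

(2) `G` is simple if and only if every normal subgroup of `G` invariant under the conjugation by
the dilations is trivial or `G`.

(3) If `G` is generated by the groups `G(q, r)` for one `0 < r < 1`, then every nontrivial normal
subgroup of `G` contains the commutator subgroup.

(4) For every nontrivial normal subgroup `N` there is `ρ > 0` such that `N` contains the copies in
`B(q, r)` of all elements of the commutator subgroup, for all balls `B(q, r)` in the unit ball with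
`r ≤ ρ`.

(5) The intersection of two nontrivial normal subgroups is nontrivial.

(6) For every homomorphism `c` from `G` to a group with the chain condition on centralizers there is
`R > 0` such that `c` takes the copies `G(q, r)`, `r ≤ R`, to the centre of its image, with values
independent of `q`, and is trivial on them if `G` is perfect.

(7) This holds for the homomorphisms to `GL_d` of every commutative Noetherian ring.

(8) The hameomorphisms in a nontrivial normal subgroup of the group of all Hamiltonian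
homeomorphisms form a nontrivial subgroup of `G`; if `G` is simple, it is `G`. -/
theorem result (n : ℕ) (hn : 0 < n) :
    (IsSimpleGroup (HameoGroup n) ↔
      commutator (HameoGroup n) = ⊤ ∧ ∃ r : ℝ, 0 < r ∧ r < 1 ∧ Fragments n r) ∧
    (IsSimpleGroup (HameoGroup n) ↔
      ∀ N : Subgroup (HameoGroup n), N.Normal → IsDilationInvariant N → N = ⊥ ∨ N = ⊤) ∧
    ((∃ r : ℝ, 0 < r ∧ r < 1 ∧ FragmentsIntoBalls n r) →
      ∀ N : Subgroup (HameoGroup n), N.Normal → N ≠ ⊥ → commutator (HameoGroup n) ≤ N) ∧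
    (∀ N : Subgroup (HameoGroup n), N.Normal → N ≠ ⊥ → ∃ ρ : ℝ, 0 < ρ ∧
      ∀ (q : E n) (r : ℝ), IsSubBall q r → r ≤ ρ → ∀ φ ∈ commutator (HameoGroup n),
        ∀ g, IsCopy q r φ g → g ∈ N) ∧
    (∀ N N' : Subgroup (HameoGroup n), N.Normal → N'.Normal → N ≠ ⊥ → N' ≠ ⊥ → N ⊓ N' ≠ ⊥) ∧
    (∀ (Γ : Type) [Group Γ], ChainCondition Γ → ∀ c : HameoGroup n →* Γ,
      ∃ R : ℝ, 0 < R ∧ IsCentralOnSmallBalls c R) ∧
    (∀ (k : Type) [CommRing k] [IsNoetherianRing k] (d : ℕ)
      (c : HameoGroup n →* Matrix.GeneralLinearGroup (Fin d) k),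
      ∃ R : ℝ, 0 < R ∧ IsCentralOnSmallBalls c R) ∧
    (∀ M : Subgroup (HamGroup n), M.Normal → M ≠ ⊥ →
      (∃ g : HameoGroup n, g ≠ 1 ∧ ∃ h ∈ M, h.map = g.map) ∧
      (IsSimpleGroup (HameoGroup n) → ∀ g : HameoGroup n, ∃ h ∈ M, h.map = g.map)) := by
  refine ⟨⟨fun h => hperf hn fun N hN _ => h.eq_bot_or_eq_top_of_normal N hN,
    fun h => simple_of hn h.1 h.2⟩,
    ⟨fun h N hN _ => h.eq_bot_or_eq_top_of_normal N hN, fun h =>
      simple_of hn (hperf hn h).1 (hperf hn h).2⟩, balls, copies, inter hn,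
    fun _ _ hΓ c => main hn hΓ c, fun k _ _ d c =>
    main hn (Pool.Agent.Q271.HB.mc_units k (Matrix (Fin d) (Fin d) k)) c, fun M hM hM1 => ?_⟩
  obtain ⟨N, hN, hN1, h⟩ := meets hn M hM hM1
  constructor
  · obtain ⟨g, hg, hg1⟩ := N.bot_or_exists_ne_one.resolve_left hN1
    exact ⟨g, hg1, (h g).1 hg⟩
  · intro hs g
    have h1 := (hs.eq_bot_or_eq_top_of_normal N hN).resolve_left hN1
    exact (h g).1 (by rw [h1]; exact Subgroup.mem_top g)

end Pool.Agent.Results.MP_68f289_gt.HameoNormalSubgroups
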