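import Pool.Agent.Q271.HB.Lin

/-!
# MP_68f289_gt: linear representations of the group of Hamiltonian homeomorphisms of the ball

`HamGroup n` is the group of the frozen statement S13311: the homeomorphisms of `ℝ^{2n}` which are
supported in a compact subset of the open unit ball `B` and are uniform limits of time one maps of
smooth Hamiltonian flows supported in the same compact set (here every `n ≥ 1` is allowed). For a
ball `B(q, r)` in `B` let `G(q, r)` be the copy of the group in this ball: its conjugate by the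
similarity `x ↦ q + r x`. It is a subgroup of `G = HamGroup n`.

Theorem. Let `c` be a homomorphism from `G` to a group with the chain condition on centralizers, for
example a homomorphism to `GL_d` of a commutative Noetherian ring (or of a field), or to the units of
a finite algebra over such a ring. Then there is `R > 0` such that `c (G(q, r))` is in the centre of
the image of `c` for all balls with `r ≤ R`, and `c` has the same value on the copies of an element
in two balls with the same radius `r ≤ R`. So `c` kills the commutators of `G(q, r)`, and all of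
`G(q, r)` if `G` is perfect.

The proof uses the construction of `Pool/Agent/Y453/HB` and the parts `Y907`, `Y510`, `Y419`,
`Y309`, `Y496`, `Y945` (folders `HB`) of the starting files.
-/

set_option autoImplicit false

namespace Pool.Agent.Results.MP_68f289_gt.LinearQuotients

/-- `ℝ^{2n}`, with coordinates `(x, y)` -/
abbrev E (n : ℕ) : Type := (Fin n → ℝ) × (Fin n → ℝ)

/-- the open unit ball -/
def ball (n : ℕ) : Set (E n) := {p | ∑ i, ((p.1 i) ^ 2 + (p.2 i) ^ 2) < 1}

/-- the directional derivative of `h` at `p` in the direction `v` -/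
noncomputable def dirDeriv {n : ℕ} (h : E n → ℝ) (p v : E n) : ℝ := fderiv ℝ h p v

/-- the unit vector of the coordinate `x i` -/
def ex {n : ℕ} (i : Fin n) : E n := (Pi.single i 1, 0)

/-- the unit vector of the coordinate `y i` -/
def ey {n : ℕ} (i : Fin n) : E n := (0, Pi.single i 1)

/-- the Hamiltonian vector field `(∂h/∂y, -∂h/∂x)` of `h` -/
noncomputable def field {n : ℕ} (h : E n → ℝ) (p : E n) : E n :=
  (fun i => dirDeriv h p (ey i), fun i => -dirDeriv h p (ex i))

/-- the time dependent Hamiltonian `H` is smooth -/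
def IsSmooth {n : ℕ} (H : ℝ → E n → ℝ) : Prop :=
  ContDiff ℝ ((⊤ : ℕ∞) : WithTop ℕ∞) (Function.uncurry H)

/-- `ψ` is the flow of the Hamiltonian `H` -/
def IsFlow {n : ℕ} (H : ℝ → E n → ℝ) (ψ : ℝ → E n → E n) : Prop :=
  (∀ x, ψ 0 x = x) ∧ ∀ t x, HasDerivAt (fun s => ψ s x) (field (H t) (ψ t x)) t

/-- `u` is the time one map of the flow of a smooth Hamiltonian supported in a compact subset of the
open unit ball -/
def IsTimeOneMap {n : ℕ} (u : E n → E n) : Prop :=
  ∃ H : ℝ → E n → ℝ, IsSmooth H ∧
    (∃ K : Set (E n), IsCompact K ∧ K ⊆ ball n ∧ ∀ t x, x ∉ K → H t x = 0) ∧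
    ∃ ψ : ℝ → E n → E n, IsFlow H ψ ∧ ∀ x, u x = ψ 1 x

/-- homeomorphisms of `ℝ^{2n}` -/
abbrev Homeo (n : ℕ) : Type := E n ≃ₜ E n

/-- `φ` is the identity off `K` -/
def FixesOff {n : ℕ} (K : Set (E n)) (φ : Homeo n) : Prop := ∀ x, x ∉ K → φ x = x

/-- the sequence `u` converges uniformly to `φ` -/
def ConvergesTo {n : ℕ} (u : ℕ → Homeo n) (φ : Homeo n) : Prop :=
  TendstoUniformly (fun k x => u k x) (fun x => φ x) Filter.atTop

/-- the homeomorphisms supported in a compact subset `K` of the open unit ball that are uniform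
limits of Hamiltonian diffeomorphisms supported in `K` -/
def hamBar (n : ℕ) : Set (Homeo n) :=
  {φ | ∃ K : Set (E n), IsCompact K ∧ K ⊆ ball n ∧ FixesOff K φ ∧
    ∃ u : ℕ → Homeo n, (∀ k, FixesOff K (u k)) ∧ (∀ k, IsTimeOneMap (u k)) ∧ ConvergesTo u φ}

/-- the group of compactly supported Hamiltonian homeomorphisms of the open unit ball -/
def HamGroup (n : ℕ) : Type := ↥(Subgroup.closure (hamBar n))

noncomputable instance (n : ℕ) : Group (HamGroup n) :=
  inferInstanceAs (Group ↥(Subgroup.closure (hamBar n)))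

/-- the homeomorphism `φ` as a map -/
def HamGroup.map {n : ℕ} (φ : HamGroup n) : E n → E n := (φ.1 : Homeo n)

/-- the Euclidean norm on `ℝ^{2n}` -/
noncomputable def eNorm {n : ℕ} (p : E n) : ℝ := Real.sqrt (∑ i, ((p.1 i) ^ 2 + (p.2 i) ^ 2))

/-- `g` is the copy of `φ` in the ball with centre `q` and radius `r`: its conjugate by the
similarity `x ↦ q + r x` -/
def IsCopy {n : ℕ} (q : E n) (r : ℝ) (φ g : HamGroup n) : Prop :=
  ∀ x, g.map (q + r • x) = q + r • φ.map x

/-- the closed ball with centre `q` and radius `r` is in the open unit ball -/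
def IsSubBall {n : ℕ} (q : E n) (r : ℝ) : Prop := 0 < r ∧ eNorm q + r < 1

/-- the chain condition on centralizers: for a decreasing sequence of subsets, the centralizers are
eventually constant -/
def ChainCondition (Γ : Type) [Group Γ] : Prop := ∀ S : ℕ → Set Γ, Antitone S →
  ∃ m, ∀ k, m ≤ k → Subgroup.centralizer (S k) = Subgroup.centralizer (S m)

/-- the homomorphism `c` takes the copies of the group in the balls with radius at most `R` to the
centre of its image, with values independent of the centre of the ball, and if the group is perfect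
it is trivial on these copies -/
def IsCentralOnSmallBalls {n : ℕ} {Γ : Type} [Group Γ] (c : HamGroup n →* Γ) (R : ℝ) : Prop :=
  ∀ r : ℝ, r ≤ R → ∀ (q : E n) (φ a : HamGroup n), IsSubBall q r → IsCopy q r φ a →
    (∀ g, c a * c g = c g * c a) ∧
    (∀ (q' : E n) (b : HamGroup n), IsSubBall q' r → IsCopy q' r φ b → c a = c b) ∧
    (commutator (HamGroup n) = ⊤ → c a = 1)

/-! ### Proofs -/

theorem timeOne_iff {n : ℕ} (u : Homeo n) : IsTimeOneMap u ↔ Pool.Agent.Y453.HB.IsHam u := by
  constructor
  · rintro ⟨H, h1, h2, ψ, ⟨h3, h4⟩, h5⟩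
    exact ⟨H, h1, h2, ψ, h3, h4, h5⟩
  · rintro ⟨H, h1, h2, ψ, h3, h4, h5⟩
    exact ⟨H, h1, h2, ψ, ⟨h3, h4⟩, h5⟩

theorem hamBar_eq (n : ℕ) : hamBar n = Pool.Agent.Y453.HB.hamBar n := by
  ext φ
  constructor
  · rintro ⟨K, h1, h2, h3, u, h4, h5, h6⟩
    exact ⟨K, h1, h2, h3, u, h4, fun k => (timeOne_iff _).1 (h5 k), h6⟩
  · rintro ⟨K, h1, h2, h3, u, h4, h5, h6⟩
    exact ⟨K, h1, h2, h3, u, h4, fun k => (timeOne_iff _).2 (h5 k), h6⟩

theorem closure_eq (n : ℕ) : Subgroup.closure (hamBar n) = Pool.Agent.Y453.HB.HamBar n := by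
  rw [hamBar_eq]
  rfl

/-- the two groups -/
noncomputable def iso (n : ℕ) : HamGroup n ≃* Pool.Agent.Y453.HB.HamBar n :=
  MulEquiv.subgroupCongr (closure_eq n)

theorem isCopy_iff {n : ℕ} {q : E n} {r : ℝ} {φ φ' : HamGroup n} :
    Pool.Agent.Q271.HB.IsCopy q r (iso n φ) (iso n φ') ↔ IsCopy q r φ φ' := Iff.rfl

theorem main {n : ℕ} (hn : 0 < n) {Γ : Type} [Group Γ] (hΓ : ChainCondition Γ)
    (c : HamGroup n →* Γ) : ∃ R : ℝ, 0 < R ∧ IsCentralOnSmallBalls c R := by
  obtain ⟨R, hR, hR1, h1, h2⟩ :=
    Pool.Agent.Q271.HB.central_of_mc hn hΓ (c.comp (iso n).symm.toMonoidHom)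
  have hc : ∀ g, (c.comp (iso n).symm.toMonoidHom) (iso n g) = c g := fun g => by
    change c ((iso n).symm (iso n g)) = c g
    rw [MulEquiv.symm_apply_apply]
  have hA : ∀ r : ℝ, r ≤ R → ∀ (q : E n) (φ a : HamGroup n), IsSubBall q r → IsCopy q r φ a →
      ∀ g, c a * c g = c g * c a := by
    intro r hr q φ a hq ha g
    have h3 := h1 r hq.1 hr q hq.2 (iso n a) ⟨iso n φ, isCopy_iff.2 ha⟩ (iso n g)
    rwa [hc, hc] at h3
  refine ⟨R, hR, fun r hr q φ a hq ha => ⟨hA r hr q φ a hq ha, fun q' b hq' hb => ?_,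
    fun hp => ?_⟩⟩
  · have h3 := h2 r hq.1 hr q q' hq.2 hq'.2 (iso n φ) (iso n a) (iso n b) (isCopy_iff.2 ha)
      (isCopy_iff.2 hb)
    rwa [hc, hc] at h3
  · -- the copy as a homomorphism
    have hex : ∀ φ : HamGroup n, ∃ a : HamGroup n, IsCopy q r φ a := by
      intro φ
      obtain ⟨a, ha⟩ := Pool.Agent.Q271.HB.exists_copy hq.1 hq.2 (iso n φ)
      refine ⟨(iso n).symm a, isCopy_iff.1 ?_⟩
      rw [MulEquiv.apply_symm_apply]
      exact ha
    have huniq : ∀ φ a a' : HamGroup n, IsCopy q r φ a → IsCopy q r φ a' → a = a' := by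
      intro φ a a' h h'
      exact (iso n).injective ((isCopy_iff.2 h).unique hq.1 (isCopy_iff.2 h'))
    choose κ hκ using hex
    have hmul : ∀ φ ψ, κ (φ * ψ) = κ φ * κ ψ := by
      intro φ ψ
      refine huniq (φ * ψ) _ _ (hκ _) fun x => ?_
      change (κ φ).map ((κ ψ).map (q + r • x)) = q + r • φ.map (ψ.map x)
      rw [hκ ψ x, hκ φ]
    let K : HamGroup n →* Γ := MonoidHom.mk' (fun φ => c (κ φ)) fun φ ψ => by
      rw [hmul, map_mul]
    have h3 : commutator (HamGroup n) ≤ K.ker := by
      rw [commutator_def, Subgroup.commutator_le]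
      intro x _ y _
      rw [MonoidHom.mem_ker, commutatorElement_def, map_mul, map_mul, map_mul, map_inv, map_inv]
      have h4 : K x * K y = K y * K x := hA r hr q x (κ x) hq (hκ x) (κ y)
      rw [h4]
      group
    rw [hp] at h3
    have h5 : K φ = 1 := MonoidHom.mem_ker.1 (h3 (Subgroup.mem_top φ))
    have h6 : κ φ = a := huniq φ _ _ (hκ φ) ha
    rw [← h6]
    exact h5

/-- Let `n ≥ 1` and let `G = HamGroup n` be the group of compactly supported Hamiltonian
homeomorphisms of the open unit ball of `ℝ^{2n}`.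

(1) Let `Γ` be a group with the chain condition on centralizers. For every homomorphism `c` from
`G` to `Γ` there is `R > 0` such that `c` takes the copies `G(q, r)`, `r ≤ R`, to the centre of its
image, with values independent of `q`, and is trivial on them if `G` is perfect.

(2) This holds for the homomorphisms to the group of units of every finite algebra over a
commutative Noetherian ring.

(3) This holds for the homomorphisms to `GL_d` of every commutative Noetherian ring. -/
theorem result (n : ℕ) (hn : 0 < n) :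
    (∀ (Γ : Type) [Group Γ], ChainCondition Γ → ∀ c : HamGroup n →* Γ,
      ∃ R : ℝ, 0 < R ∧ IsCentralOnSmallBalls c R) ∧
    (∀ (k A : Type) [CommRing k] [IsNoetherianRing k] [Ring A] [Algebra k A] [Module.Finite k A]
      (c : HamGroup n →* Aˣ), ∃ R : ℝ, 0 < R ∧ IsCentralOnSmallBalls c R) ∧
    (∀ (k : Type) [CommRing k] [IsNoetherianRing k] (d : ℕ)
      (c : HamGroup n →* Matrix.GeneralLinearGroup (Fin d) k),
      ∃ R : ℝ, 0 < R ∧ IsCentralOnSmallBalls c R) :=
  ⟨fun _ _ hΓ c => main hn hΓ c, fun k A _ _ _ _ _ c =>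
    main hn (Pool.Agent.Q271.HB.mc_units k A) c, fun k _ _ d c =>
    main hn (Pool.Agent.Q271.HB.mc_units k (Matrix (Fin d) (Fin d) k)) c⟩

end Pool.Agent.Results.MP_68f289_gt.LinearQuotients
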