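import Pool.Agent.Q271.HB.Crit

/-!
# MP_68f289_gt: a criterion for the simplicity of the group of Hamiltonian homeomorphisms

`HamGroup n` is the group of the frozen statement S13311: the homeomorphisms of `ℝ^{2n}` which are
supported in a compact subset of the open unit ball `B` and are uniform limits of time one maps of
smooth Hamiltonian flows supported in the same compact set (here every `n ≥ 1` is allowed). For a
ball `B(q, r)` in `B` let `G(q, r)` be the copy of the group in this ball: its conjugate by the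
similarity `x ↦ q + r x`. It is a subgroup of `G = HamGroup n`.

Theorem. The group `G` is simple if and only if it is perfect and, for one radius `r < 1`, it is
generated by the conjugates of the elements of `G(0, r)` (then this holds for all `r`). It is simple
if and only if the only normal subgroups invariant under the conjugation by the dilations
`x ↦ s x`, `0 < s < 1`, are the trivial group and `G`. Every nontrivial normal subgroup contains the
commutators of `G(q, r)` for all small `r` and all `q`; two nontrivial normal subgroups have a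
nontrivial intersection.

The proof uses the construction of `Pool/Agent/Y453/HB` and the parts `Y907`, `Y510`, `Y419`,
`Y309`, `Y496`, `Y945` (folders `HB`) of the starting files.
-/

set_option autoImplicit false

namespace Pool.Agent.Results.MP_68f289_gt.SimplicityCriterion

/-- `ℝ^{2n}`, with coordinates `(x, y)` -/
abbrev E (n : ℕ) : Type := (Fin n → ℝ) × (Fin n → ℝ)

/-- the open unit ball -/
def ball (n : ℕ) : Set (E n) := {p | ∑ i, ((p.1 i) ^ 2 + (p.2 i) ^ 2) < 1}

/-- the directional derivative of `h` at `p` in the direction `v` -/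
noncomputable def dirDeriv {n : ℕ} (h : E n → ℝ) (p v : E n) : ℝ := fderiv ℝ h p v

/-- the unit vector of the coordinate `x i` -/
def ex {n : ℕ} (i : Fin n) : E n := (Pi.single i 1, 0)

/-- the unit vector of the coordinate `y i` -/
def ey {n : ℕ} (i : Fin n) : E n := (0, Pi.single i 1)

/-- the Hamiltonian vector field `(∂h/∂y, -∂h/∂x)` of `h` -/
noncomputable def field {n : ℕ} (h : E n → ℝ) (p : E n) : E n :=
  (fun i => dirDeriv h p (ey i), fun i => -dirDeriv h p (ex i))

/-- the time dependent Hamiltonian `H` is smooth -/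
def IsSmooth {n : ℕ} (H : ℝ → E n → ℝ) : Prop :=
  ContDiff ℝ ((⊤ : ℕ∞) : WithTop ℕ∞) (Function.uncurry H)

/-- `ψ` is the flow of the Hamiltonian `H` -/
def IsFlow {n : ℕ} (H : ℝ → E n → ℝ) (ψ : ℝ → E n → E n) : Prop :=
  (∀ x, ψ 0 x = x) ∧ ∀ t x, HasDerivAt (fun s => ψ s x) (field (H t) (ψ t x)) t

/-- `u` is the time one map of the flow of a smooth Hamiltonian supported in a compact subset of the
open unit ball -/
def IsTimeOneMap {n : ℕ} (u : E n → E n) : Prop :=
  ∃ H : ℝ → E n → ℝ, IsSmooth H ∧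
    (∃ K : Set (E n), IsCompact K ∧ K ⊆ ball n ∧ ∀ t x, x ∉ K → H t x = 0) ∧
    ∃ ψ : ℝ → E n → E n, IsFlow H ψ ∧ ∀ x, u x = ψ 1 x

/-- homeomorphisms of `ℝ^{2n}` -/
abbrev Homeo (n : ℕ) : Type := E n ≃ₜ E n

/-- `φ` is the identity off `K` -/
def FixesOff {n : ℕ} (K : Set (E n)) (φ : Homeo n) : Prop := ∀ x, x ∉ K → φ x = x

/-- the sequence `u` converges uniformly to `φ` -/
def ConvergesTo {n : ℕ} (u : ℕ → Homeo n) (φ : Homeo n) : Prop :=
  TendstoUniformly (fun k x => u k x) (fun x => φ x) Filter.atTop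

/-- the homeomorphisms supported in a compact subset `K` of the open unit ball that are uniform
limits of Hamiltonian diffeomorphisms supported in `K` -/
def hamBar (n : ℕ) : Set (Homeo n) :=
  {φ | ∃ K : Set (E n), IsCompact K ∧ K ⊆ ball n ∧ FixesOff K φ ∧
    ∃ u : ℕ → Homeo n, (∀ k, FixesOff K (u k)) ∧ (∀ k, IsTimeOneMap (u k)) ∧ ConvergesTo u φ}

/-- the group of compactly supported Hamiltonian homeomorphisms of the open unit ball -/
def HamGroup (n : ℕ) : Type := ↥(Subgroup.closure (hamBar n))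

noncomputable instance (n : ℕ) : Group (HamGroup n) :=
  inferInstanceAs (Group ↥(Subgroup.closure (hamBar n)))

/-- the homeomorphism `φ` as a map -/
def HamGroup.map {n : ℕ} (φ : HamGroup n) : E n → E n := (φ.1 : Homeo n)

/-- the Euclidean norm on `ℝ^{2n}` -/
noncomputable def eNorm {n : ℕ} (p : E n) : ℝ := Real.sqrt (∑ i, ((p.1 i) ^ 2 + (p.2 i) ^ 2))

/-- `g` is the copy of `φ` in the ball with centre `q` and radius `r`: its conjugate by the
similarity `x ↦ q + r x` -/
def IsCopy {n : ℕ} (q : E n) (r : ℝ) (φ g : HamGroup n) : Prop :=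
  ∀ x, g.map (q + r • x) = q + r • φ.map x

/-- the copy `G(q, r)` of the group in the ball with centre `q` and radius `r` -/
def copyGroup {n : ℕ} (q : E n) (r : ℝ) : Set (HamGroup n) := {g | ∃ φ, IsCopy q r φ g}

/-- the closed ball with centre `q` and radius `r` is in the open unit ball -/
def IsSubBall {n : ℕ} (q : E n) (r : ℝ) : Prop := 0 < r ∧ eNorm q + r < 1

/-- the group `G(0, r)` normally generates the whole group: every element is a product of conjugates
of elements of `G(0, r)` -/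
def Fragments (n : ℕ) (r : ℝ) : Prop :=
  Subgroup.normalClosure (copyGroup (0 : E n) r) = ⊤

/-- the set `N` is invariant under the conjugation by the dilations `x ↦ s x`, `0 < s < 1` -/
def IsDilationInvariant {n : ℕ} (N : Subgroup (HamGroup n)) : Prop :=
  ∀ s : ℝ, 0 < s → s < 1 → ∀ φ φ' : HamGroup n, (∀ x, φ'.map (s • x) = s • φ.map x) →
    φ ∈ N → φ' ∈ N

/-! ### Proofs -/

theorem timeOne_iff {n : ℕ} (u : Homeo n) : IsTimeOneMap u ↔ Pool.Agent.Y453.HB.IsHam u := by
  constructor
  · rintro ⟨H, h1, h2, ψ, ⟨h3, h4⟩, h5⟩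
    exact ⟨H, h1, h2, ψ, h3, h4, h5⟩
  · rintro ⟨H, h1, h2, ψ, h3, h4, h5⟩
    exact ⟨H, h1, h2, ψ, ⟨h3, h4⟩, h5⟩

theorem hamBar_eq (n : ℕ) : hamBar n = Pool.Agent.Y453.HB.hamBar n := by
  ext φ
  constructor
  · rintro ⟨K, h1, h2, h3, u, h4, h5, h6⟩
    exact ⟨K, h1, h2, h3, u, h4, fun k => (timeOne_iff _).1 (h5 k), h6⟩
  · rintro ⟨K, h1, h2, h3, u, h4, h5, h6⟩
    exact ⟨K, h1, h2, h3, u, h4, fun k => (timeOne_iff _).2 (h5 k), h6⟩

theorem closure_eq (n : ℕ) : Subgroup.closure (hamBar n) = Pool.Agent.Y453.HB.HamBar n := by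
  rw [hamBar_eq]
  rfl

/-- the two groups -/
noncomputable def iso (n : ℕ) : HamGroup n ≃* Pool.Agent.Y453.HB.HamBar n :=
  MulEquiv.subgroupCongr (closure_eq n)

theorem isCopy_iff {n : ℕ} {q : E n} {r : ℝ} {φ φ' : HamGroup n} :
    Pool.Agent.Q271.HB.IsCopy q r (iso n φ) (iso n φ') ↔ IsCopy q r φ φ' := Iff.rfl

theorem image_copy {n : ℕ} (q : E n) (r : ℝ) : (iso n) '' copyGroup q r =
    (Pool.Agent.Q271.HB.Loc q r : Set (Pool.Agent.Y453.HB.HamBar n)) := by
  ext x
  constructor
  · rintro ⟨g, ⟨φ, hg⟩, rfl⟩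
    exact ⟨iso n φ, isCopy_iff.2 hg⟩
  · rintro ⟨φ, hg⟩
    refine ⟨(iso n).symm x, ⟨(iso n).symm φ, isCopy_iff.1 ?_⟩, MulEquiv.apply_symm_apply _ _⟩
    rw [MulEquiv.apply_symm_apply, MulEquiv.apply_symm_apply]
    exact hg

theorem map_top_iff {n : ℕ} (M : Subgroup (HamGroup n)) :
    M.map (iso n).toMonoidHom = ⊤ ↔ M = ⊤ := by
  constructor
  · intro h
    rw [eq_top_iff]
    intro x _
    have h1 : iso n x ∈ M.map (iso n).toMonoidHom := by
      rw [h]
      exact Subgroup.mem_top _
    obtain ⟨y, hy, hxy⟩ := h1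
    have h2 : y = x := (iso n).injective hxy
    rwa [← h2]
  · intro h
    rw [h, ← MonoidHom.range_eq_map, MonoidHom.range_eq_top.2 (iso n).surjective]

theorem fragments_iff {n : ℕ} {r : ℝ} : Fragments n r ↔ Pool.Agent.Q271.HB.Fr n r = ⊤ := by
  unfold Fragments
  rw [← map_top_iff, Subgroup.map_normalClosure _ _ (iso n).surjective]
  change Subgroup.normalClosure ((iso n) '' copyGroup (0 : E n) r) = ⊤ ↔ _
  rw [image_copy]
  rfl

theorem perfect_iff {n : ℕ} : commutator (HamGroup n) = ⊤ ↔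
    commutator (Pool.Agent.Y453.HB.HamBar n) = ⊤ := by
  rw [← map_top_iff, commutator_def, Subgroup.map_commutator, ← MonoidHom.range_eq_map,
    MonoidHom.range_eq_top.2 (iso n).surjective]
  rfl

theorem comap_bot {n : ℕ} {M : Subgroup (HamGroup n)}
    (h : M.comap (iso n).symm.toMonoidHom = ⊥) : M = ⊥ := by
  rw [Subgroup.eq_bot_iff_forall] at h ⊢
  intro x hx
  have h1 := h (iso n x) (by
    change (iso n).symm (iso n x) ∈ M
    rwa [MulEquiv.symm_apply_apply])
  exact (iso n).injective (h1.trans (map_one _).symm)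

theorem comap_top {n : ℕ} {M : Subgroup (HamGroup n)}
    (h : M.comap (iso n).symm.toMonoidHom = ⊤) : M = ⊤ := by
  rw [eq_top_iff]
  intro x _
  have h1 : iso n x ∈ M.comap (iso n).symm.toMonoidHom := by
    rw [h]
    exact Subgroup.mem_top _
  change (iso n).symm (iso n x) ∈ M at h1
  rwa [MulEquiv.symm_apply_apply] at h1

theorem comap_ne_bot {n : ℕ} {M : Subgroup (Pool.Agent.Y453.HB.HamBar n)} (h : M ≠ ⊥) :
    M.comap (iso n).toMonoidHom ≠ ⊥ := by
  intro h1
  apply h
  rw [Subgroup.eq_bot_iff_forall] at h1 ⊢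
  intro x hx
  have h2 := h1 ((iso n).symm x) (by
    change iso n ((iso n).symm x) ∈ M
    rwa [MulEquiv.apply_symm_apply])
  have h3 := congrArg (iso n) h2
  rwa [MulEquiv.apply_symm_apply, map_one] at h3

theorem of_comap_top {n : ℕ} {M : Subgroup (Pool.Agent.Y453.HB.HamBar n)}
    (h : M.comap (iso n).toMonoidHom = ⊤) : M = ⊤ := by
  rw [eq_top_iff]
  intro x _
  have h1 : (iso n).symm x ∈ M.comap (iso n).toMonoidHom := by
    rw [h]
    exact Subgroup.mem_top _
  change iso n ((iso n).symm x) ∈ M at h1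
  rwa [MulEquiv.apply_symm_apply] at h1

theorem nontriv {n : ℕ} (hn : 0 < n) : Nontrivial (HamGroup n) := by
  obtain ⟨φ, hφ⟩ := Pool.Agent.Q271.HB.exists_ne_one (n := n) hn
  exact ⟨(iso n).symm φ, 1, fun h => hφ (by
    have h1 := congrArg (iso n) h
    rwa [MulEquiv.apply_symm_apply, map_one] at h1)⟩

theorem simple_of {n : ℕ} (hn : 0 < n) (h1 : commutator (HamGroup n) = ⊤)
    (h2 : ∃ r : ℝ, 0 < r ∧ r < 1 ∧ Fragments n r) : IsSimpleGroup (HamGroup n) := by
  obtain ⟨r, hr, hr1, hF⟩ := h2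
  haveI := nontriv hn
  refine ⟨fun M hM => ?_⟩
  by_cases hb : M = ⊥
  · exact Or.inl hb
  · refine Or.inr (comap_top (Pool.Agent.Q271.HB.simple_of hn (perfect_iff.1 h1) hr hr1
      (fragments_iff.1 hF) _ (hM.comap _) fun h => hb (comap_bot h)))

/-- Let `n ≥ 1` and let `G = HamGroup n` be the group of compactly supported Hamiltonian
homeomorphisms of the open unit ball of `ℝ^{2n}`.

(1) `G` is simple if and only if it is perfect and is generated by the conjugates of the elements of
`G(0, r)` for some `0 < r < 1`.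

(2) If `G` is generated by the conjugates of the elements of `G(0, r)` for one `0 < r < 1`, this
holds for all `0 < r < 1`.

(3) `G` is simple if and only if every normal subgroup of `G` invariant under the conjugation by
the dilations is trivial or `G`.

(4) For every nontrivial normal subgroup `N` there is `ρ > 0` such that `N` contains the commutators
of the elements of `G(q, r)` for all balls `B(q, r)` in the unit ball with `r ≤ ρ`.

(5) The intersection of two nontrivial normal subgroups is nontrivial. -/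
theorem result (n : ℕ) (hn : 0 < n) :
    (IsSimpleGroup (HamGroup n) ↔
      commutator (HamGroup n) = ⊤ ∧ ∃ r : ℝ, 0 < r ∧ r < 1 ∧ Fragments n r) ∧
    (∀ r s : ℝ, 0 < r → r < 1 → 0 < s → s < 1 → Fragments n r → Fragments n s) ∧
    (IsSimpleGroup (HamGroup n) ↔
      ∀ N : Subgroup (HamGroup n), N.Normal → IsDilationInvariant N → N = ⊥ ∨ N = ⊤) ∧
    (∀ N : Subgroup (HamGroup n), N.Normal → N ≠ ⊥ → ∃ ρ : ℝ, 0 < ρ ∧
      ∀ (q : E n) (r : ℝ), IsSubBall q r → r ≤ ρ → ∀ a ∈ copyGroup q r, ∀ b ∈ copyGroup q r,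
        a * b * a⁻¹ * b⁻¹ ∈ N) ∧
    (∀ N N' : Subgroup (HamGroup n), N.Normal → N'.Normal → N ≠ ⊥ → N' ≠ ⊥ → N ⊓ N' ≠ ⊥) := by
  have hperf : (∀ N : Subgroup (HamGroup n), N.Normal → IsDilationInvariant N → N = ⊥ ∨ N = ⊤) →
      commutator (HamGroup n) = ⊤ ∧ ∃ r : ℝ, 0 < r ∧ r < 1 ∧ Fragments n r := by
    intro h
    have key : ∀ M : Subgroup (Pool.Agent.Y453.HB.HamBar n), M.Normal → M ≠ ⊥ →
        (∀ (s : ℝ) (hs : 0 < s) (hs1 : s < 1), M ≤ M.comap (Pool.Agent.Q271.HB.lam s hs hs1)) →
        M = ⊤ := by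
      intro M hM hM1 hM2
      refine of_comap_top ((h (M.comap (iso n).toMonoidHom) (hM.comap _) ?_).resolve_left
        (comap_ne_bot hM1))
      intro s hs hs1 φ φ' hφ hm
      have h1 : Pool.Agent.Q271.HB.lam s hs hs1 (iso n φ) = iso n φ' := by
        refine (Pool.Agent.Q271.HB.lam_isCopy hs hs1 (iso n φ)).unique hs ?_
        rw [isCopy_iff]
        intro x
        rw [zero_add, zero_add]
        exact hφ x
      have h2 := hM2 s hs hs1 (show iso n φ ∈ M from hm)
      change Pool.Agent.Q271.HB.lam s hs hs1 (iso n φ) ∈ M at h2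
      rw [h1] at h2
      exact h2
    constructor
    · rw [perfect_iff]
      exact key _ inferInstance (Pool.Agent.Q271.HB.commutator_ne_bot hn)
        fun s hs hs1 => Pool.Agent.Q271.HB.inv_commutator hs hs1
    · refine ⟨1 / 2, by norm_num, by norm_num, ?_⟩
      rw [fragments_iff]
      exact key _ inferInstance
        (Pool.Agent.Q271.HB.Fr_ne_bot hn (by norm_num) (by norm_num))
        fun s hs hs1 => Pool.Agent.Q271.HB.inv_Fr hs hs1 (by norm_num)
  refine ⟨⟨fun h => hperf fun N hN _ => h.eq_bot_or_eq_top_of_normal N hN,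
    fun h => simple_of hn h.1 h.2⟩, fun r s hr hr1 hs hs1 h => ?_,
    ⟨fun h N hN _ => h.eq_bot_or_eq_top_of_normal N hN, fun h => ?_⟩, fun N hN hN1 => ?_,
    fun N N' hN hN' h h' hc => ?_⟩
  · rw [fragments_iff] at h ⊢
    exact Pool.Agent.Q271.HB.Fr_all hr hr1 h hs
  · exact simple_of hn (hperf h).1 (hperf h).2
  · have hN2 : (N.comap (iso n).symm.toMonoidHom).Normal := hN.comap _
    obtain ⟨ρ, hρ, h1⟩ := Pool.Agent.Q271.HB.commutators (N.comap (iso n).symm.toMonoidHom)
      fun h => hN1 (comap_bot h)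
    refine ⟨ρ, hρ, fun q r hq hrρ a ha b hb => ?_⟩
    obtain ⟨φ, hφ⟩ := ha
    obtain ⟨ψ, hψ⟩ := hb
    have h2 := h1 r hq.1 hrρ q hq.2 (iso n a) ⟨iso n φ, isCopy_iff.2 hφ⟩ (iso n b)
      ⟨iso n ψ, isCopy_iff.2 hψ⟩
    rw [← map_mul, ← map_inv, ← map_mul, ← map_inv, ← map_mul] at h2
    change (iso n).symm (iso n (a * b * a⁻¹ * b⁻¹)) ∈ N at h2
    rwa [MulEquiv.symm_apply_apply] at h2
  · refine Pool.Agent.Q271.HB.inter hn (N.comap (iso n).symm.toMonoidHom)
      (N'.comap (iso n).symm.toMonoidHom) (hN.comap _) (hN'.comap _)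
      (fun h1 => h (comap_bot h1)) (fun h1 => h' (comap_bot h1)) ?_
    rw [← Subgroup.comap_inf, hc, Subgroup.eq_bot_iff_forall]
    intro x hx
    have h1 : (iso n).symm x = 1 := Subgroup.mem_bot.1 hx
    have h2 := congrArg (iso n) h1
    rwa [MulEquiv.apply_symm_apply, map_one] at h2

end Pool.Agent.Results.MP_68f289_gt.SimplicityCriterion
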