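import Pool.Agent.Q271.HB.Main

/-!
# MP_68f289_gt: quotients of the group of Hamiltonian homeomorphisms with less than continuum many elements

`HamGroup n` is the group of the frozen statement S13311: the homeomorphisms of `ℝ^{2n}` which are
supported in a compact subset of the open unit ball `B` and are uniform limits of time one maps of
smooth Hamiltonian flows supported in the same compact set (here every `n ≥ 1` is allowed). For a
ball `B(q, r)` in `B` let `G(q, r)` be the copy of the group in this ball: its conjugate by the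
similarity `x ↦ q + r x`. It is a subgroup of `G = HamGroup n`.

Theorem. Let `c` be a homomorphism from `G` to a group `Γ` with less than `2^ℵ₀` elements. Then
`c (G(q, r))` is the same subgroup `C` of `Γ` for all balls with `r` at most some `R > 0`; it is
central in the image of `c`; it is a cotorsion group: all the systems of equations
`b_k = a_k b_{k+1}^{e_k}` are solvable in it; and for some `d ≥ 1` the group of `d`-th powers of
its elements is divisible. So `c` is trivial on all the copies `G(q, r)`, `r ≤ R`, if the centre of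
the image is trivial, or if `Γ` is torsion-free and has no elements with roots of all orders other
than the identity.

The proof uses the construction of `Pool/Agent/Y453/HB` and the parts `Y907`, `Y510`, `Y419`,
`Y309`, `Y496`, `Y945` (folders `HB`) of the starting files.
-/

set_option autoImplicit false

namespace Pool.Agent.Results.MP_68f289_gt.SmallQuotients

/-- `ℝ^{2n}`, with coordinates `(x, y)` -/
abbrev E (n : ℕ) : Type := (Fin n → ℝ) × (Fin n → ℝ)

/-- the open unit ball -/
def ball (n : ℕ) : Set (E n) := {p | ∑ i, ((p.1 i) ^ 2 + (p.2 i) ^ 2) < 1}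

/-- the directional derivative of `h` at `p` in the direction `v` -/
noncomputable def dirDeriv {n : ℕ} (h : E n → ℝ) (p v : E n) : ℝ := fderiv ℝ h p v

/-- the unit vector of the coordinate `x i` -/
def ex {n : ℕ} (i : Fin n) : E n := (Pi.single i 1, 0)

/-- the unit vector of the coordinate `y i` -/
def ey {n : ℕ} (i : Fin n) : E n := (0, Pi.single i 1)

/-- the Hamiltonian vector field `(∂h/∂y, -∂h/∂x)` of `h` -/
noncomputable def field {n : ℕ} (h : E n → ℝ) (p : E n) : E n :=
  (fun i => dirDeriv h p (ey i), fun i => -dirDeriv h p (ex i))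

/-- the time dependent Hamiltonian `H` is smooth -/
def IsSmooth {n : ℕ} (H : ℝ → E n → ℝ) : Prop :=
  ContDiff ℝ ((⊤ : ℕ∞) : WithTop ℕ∞) (Function.uncurry H)

/-- `ψ` is the flow of the Hamiltonian `H` -/
def IsFlow {n : ℕ} (H : ℝ → E n → ℝ) (ψ : ℝ → E n → E n) : Prop :=
  (∀ x, ψ 0 x = x) ∧ ∀ t x, HasDerivAt (fun s => ψ s x) (field (H t) (ψ t x)) t

/-- `u` is the time one map of the flow of a smooth Hamiltonian supported in a compact subset of the
open unit ball -/
def IsTimeOneMap {n : ℕ} (u : E n → E n) : Prop :=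
  ∃ H : ℝ → E n → ℝ, IsSmooth H ∧
    (∃ K : Set (E n), IsCompact K ∧ K ⊆ ball n ∧ ∀ t x, x ∉ K → H t x = 0) ∧
    ∃ ψ : ℝ → E n → E n, IsFlow H ψ ∧ ∀ x, u x = ψ 1 x

/-- homeomorphisms of `ℝ^{2n}` -/
abbrev Homeo (n : ℕ) : Type := E n ≃ₜ E n

/-- `φ` is the identity off `K` -/
def FixesOff {n : ℕ} (K : Set (E n)) (φ : Homeo n) : Prop := ∀ x, x ∉ K → φ x = x

/-- the sequence `u` converges uniformly to `φ` -/
def ConvergesTo {n : ℕ} (u : ℕ → Homeo n) (φ : Homeo n) : Prop :=
  TendstoUniformly (fun k x => u k x) (fun x => φ x) Filter.atTop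

/-- the homeomorphisms supported in a compact subset `K` of the open unit ball that are uniform
limits of Hamiltonian diffeomorphisms supported in `K` -/
def hamBar (n : ℕ) : Set (Homeo n) :=
  {φ | ∃ K : Set (E n), IsCompact K ∧ K ⊆ ball n ∧ FixesOff K φ ∧
    ∃ u : ℕ → Homeo n, (∀ k, FixesOff K (u k)) ∧ (∀ k, IsTimeOneMap (u k)) ∧ ConvergesTo u φ}

/-- the group of compactly supported Hamiltonian homeomorphisms of the open unit ball -/
def HamGroup (n : ℕ) : Type := ↥(Subgroup.closure (hamBar n))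

noncomputable instance (n : ℕ) : Group (HamGroup n) :=
  inferInstanceAs (Group ↥(Subgroup.closure (hamBar n)))

/-- the homeomorphism `φ` as a map -/
def HamGroup.map {n : ℕ} (φ : HamGroup n) : E n → E n := (φ.1 : Homeo n)

/-- the Euclidean norm on `ℝ^{2n}` -/
noncomputable def eNorm {n : ℕ} (p : E n) : ℝ := Real.sqrt (∑ i, ((p.1 i) ^ 2 + (p.2 i) ^ 2))

/-- `g` is the copy of `φ` in the ball with centre `q` and radius `r`: its conjugate by the
similarity `x ↦ q + r x` -/
def IsCopy {n : ℕ} (q : E n) (r : ℝ) (φ g : HamGroup n) : Prop :=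
  ∀ x, g.map (q + r • x) = q + r • φ.map x

/-- the copy `G(q, r)` of the group in the ball with centre `q` and radius `r` -/
def copyGroup {n : ℕ} (q : E n) (r : ℝ) : Set (HamGroup n) := {g | ∃ φ, IsCopy q r φ g}

/-- the closed ball with centre `q` and radius `r` is in the open unit ball -/
def IsSubBall {n : ℕ} (q : E n) (r : ℝ) : Prop := 0 < r ∧ eNorm q + r < 1

/-- the subgroup `C` is a cotorsion group: every system `b_k = a_k b_{k+1}^{e_k}` with `a_k` in `C`
and integers `e_k` is solvable in `C` -/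
def IsCotorsion {Γ : Type} [Group Γ] (C : Subgroup Γ) : Prop :=
  ∀ (a : ℕ → Γ) (e : ℕ → ℤ), (∀ k, a k ∈ C) →
    ∃ b : ℕ → Γ, (∀ k, b k ∈ C) ∧ ∀ k, b k = a k * b (k + 1) ^ e k

/-- the `d`-th powers of the elements of `C` are `m`-th powers of `d`-th powers of elements of `C`,
for all `m ≥ 1` -/
def PowersDivisible {Γ : Type} [Group Γ] (C : Subgroup Γ) (d : ℕ) : Prop :=
  ∀ m : ℕ, 0 < m → ∀ x ∈ C, ∃ y ∈ C, x ^ d = (y ^ d) ^ m

/-! ### Proofs -/

theorem timeOne_iff {n : ℕ} (u : Homeo n) : IsTimeOneMap u ↔ Pool.Agent.Y453.HB.IsHam u := by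
  constructor
  · rintro ⟨H, h1, h2, ψ, ⟨h3, h4⟩, h5⟩
    exact ⟨H, h1, h2, ψ, h3, h4, h5⟩
  · rintro ⟨H, h1, h2, ψ, h3, h4, h5⟩
    exact ⟨H, h1, h2, ψ, ⟨h3, h4⟩, h5⟩

theorem hamBar_eq (n : ℕ) : hamBar n = Pool.Agent.Y453.HB.hamBar n := by
  ext φ
  constructor
  · rintro ⟨K, h1, h2, h3, u, h4, h5, h6⟩
    exact ⟨K, h1, h2, h3, u, h4, fun k => (timeOne_iff _).1 (h5 k), h6⟩
  · rintro ⟨K, h1, h2, h3, u, h4, h5, h6⟩
    exact ⟨K, h1, h2, h3, u, h4, fun k => (timeOne_iff _).2 (h5 k), h6⟩

theorem closure_eq (n : ℕ) : Subgroup.closure (hamBar n) = Pool.Agent.Y453.HB.HamBar n := by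
  rw [hamBar_eq]
  rfl

/-- the two groups -/
noncomputable def iso (n : ℕ) : HamGroup n ≃* Pool.Agent.Y453.HB.HamBar n :=
  MulEquiv.subgroupCongr (closure_eq n)

theorem isCopy_iff {n : ℕ} {q : E n} {r : ℝ} {φ φ' : HamGroup n} :
    Pool.Agent.Q271.HB.IsCopy q r (iso n φ) (iso n φ') ↔ IsCopy q r φ φ' := Iff.rfl

/-- Let `n ≥ 1`, let `G = HamGroup n` be the group of compactly supported Hamiltonian homeomorphisms
of the open unit ball of `ℝ^{2n}`, and let `c` be a homomorphism from `G` to a group `Γ` with less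
than continuum many elements. There are `0 < R < 1` and a subgroup `C` of `Γ` such that

(1) `c (G(q, r)) = C` for all closed balls `B(q, r)` in the open unit ball with `r ≤ R`;

(2) the elements of `C` commute with all the elements of the image of `c`;

(3) `C` is a cotorsion group;

(4) for some `d ≥ 1` the group of the `d`-th powers of the elements of `C` is divisible;

(5) if the image of `c` has trivial centre then `C = 1`;

(6) if every element of `Γ` other than `1` has infinite order and has no `m`-th root for some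
`m ≥ 1`, then `C = 1`. -/
theorem result (n : ℕ) (hn : 0 < n) (Γ : Type) [Group Γ]
    (hΓ : Cardinal.mk Γ < Cardinal.continuum) (c : HamGroup n →* Γ) :
    ∃ (R : ℝ) (C : Subgroup Γ), 0 < R ∧ R < 1 ∧
      (∀ (q : E n) (r : ℝ), IsSubBall q r → r ≤ R → c '' copyGroup q r = C) ∧
      (∀ x ∈ C, ∀ g, x * c g = c g * x) ∧
      IsCotorsion C ∧
      (∃ d : ℕ, 0 < d ∧ PowersDivisible C d) ∧
      ((∀ x ∈ c.range, (∀ y ∈ c.range, x * y = y * x) → x = 1) → C = ⊥) ∧
      ((∀ x : Γ, x ≠ 1 → (∀ m : ℕ, 0 < m → x ^ m ≠ 1) ∧ ∃ m : ℕ, 0 < m ∧ ∀ y : Γ, y ^ m ≠ x) →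
        C = ⊥) := by
  obtain ⟨R, C, hR, hR1, h1, h2, h3, d, hd, h4⟩ :=
    Pool.Agent.Q271.HB.small hn hΓ (c.comp (iso n).symm.toMonoidHom)
  have h1' : ∀ (q : E n) (r : ℝ), IsSubBall q r → r ≤ R → c '' copyGroup q r = C := by
    intro q r hq hrR
    rw [← h1 r hq.1 hrR q hq.2]
    ext x
    constructor
    · rintro ⟨g, ⟨φ, hg⟩, rfl⟩
      refine ⟨iso n g, ⟨iso n φ, isCopy_iff.2 hg⟩, ?_⟩
      change c ((iso n).symm (iso n g)) = c g
      rw [MulEquiv.symm_apply_apply]
    · rintro ⟨g, ⟨φ, hg⟩, rfl⟩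
      refine ⟨(iso n).symm g, ⟨(iso n).symm φ, isCopy_iff.1 ?_⟩, rfl⟩
      rw [MulEquiv.apply_symm_apply, MulEquiv.apply_symm_apply]
      exact hg
  have h2' : ∀ x ∈ C, ∀ g, x * c g = c g * x := by
    intro x hx g
    have h := h2 x hx (iso n g)
    change x * c ((iso n).symm (iso n g)) = c ((iso n).symm (iso n g)) * x at h
    rwa [MulEquiv.symm_apply_apply] at h
  refine ⟨R, C, hR, hR1, h1', h2', h3, ⟨d, hd, fun m hm x hx => ?_⟩, fun hc => ?_, fun hc => ?_⟩
  · obtain ⟨y, hy, hxy⟩ := h4 m hm x hx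
    exact ⟨y, hy, by rw [hxy, pow_mul]⟩
  · rw [Subgroup.eq_bot_iff_forall]
    intro x hx
    have h5 : x ∈ c '' copyGroup (0 : E n) (R / 2) := by
      rw [h1' 0 (R / 2) ⟨by linarith, ?_⟩ (by linarith)]
      · exact hx
      · have h6 : eNorm (0 : E n) = 0 := by simp [eNorm]
        rw [h6]
        linarith
    obtain ⟨g, -, rfl⟩ := h5
    refine hc _ ⟨g, rfl⟩ ?_
    rintro _ ⟨g', rfl⟩
    exact h2' _ hx g'
  · rw [Subgroup.eq_bot_iff_forall]
    intro x hx
    by_contra hx1
    have h5 := (hc x hx1).1 d hd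
    obtain ⟨m, hm, hm'⟩ := (hc _ h5).2
    obtain ⟨y, hy, hxy⟩ := h4 m hm x hx
    apply hm' (y ^ d)
    rw [hxy, pow_mul]

end Pool.Agent.Results.MP_68f289_gt.SmallQuotients
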